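import Pool.Agent.LE.StmtsQZ

/-!
Row THC (squad LQZ): the inverse of `1 - Y` in the sup norm, from `|(1 - Y)⁻¹ - 1| ≤ 1`
(adapted from `Helper41_LQF/THB.lean`).
-/

set_option autoImplicit false

open scoped BigOperators Matrix ComplexOrder

noncomputable section

namespace Pool.Agent.LE.QZ.H44

open Pool.Agent.LE.QD

section
variable {X : Type} [Fintype X]

theorem n2_nn (u : X → ℂ) : 0 ≤ n2 u := Finset.sum_nonneg fun _ _ => by positivity

theorem n2_zero {u : X → ℂ} (h : n2 u ≤ 0) : u = 0 := by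
  funext a
  have h1 : ‖u a‖ ^ 2 ≤ n2 u := Finset.single_le_sum (f := fun x => ‖u x‖ ^ 2)
    (fun _ _ => by positivity) (Finset.mem_univ a)
  have h2 : ‖u a‖ ^ 2 = 0 := le_antisymm (h1.trans h) (by positivity)
  have h3 : ‖u a‖ = 0 := pow_eq_zero_iff (two_ne_zero) |>.1 h2
  simpa using h3

/-- the norm of `ℓ²` -/
def nr (u : X → ℂ) : ℝ := Real.sqrt (n2 u)

theorem nr_eq (u : X → ℂ) : nr u = ‖(WithLp.toLp 2 u : EuclideanSpace ℂ X)‖ := by
  rw [EuclideanSpace.norm_eq]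
  rfl

theorem nr_add (u v : X → ℂ) : nr (u + v) ≤ nr u + nr v := by
  rw [nr_eq, nr_eq, nr_eq, WithLp.toLp_add]
  exact norm_add_le _ _

/-- Schur -/
theorem schur (Y : Matrix X X ℂ) (t : ℝ) (ht : 0 ≤ t) (hsym : ∀ a b, Y a b = Y b a)
    (hrow : ∀ a, ∑ b, ‖Y a b‖ ≤ t) (u : X → ℂ) : n2 (Y *ᵥ u) ≤ t ^ 2 * n2 u := by
  have h1 : ∀ a, ‖(Y *ᵥ u) a‖ ^ 2 ≤ t * ∑ b, ‖Y a b‖ * ‖u b‖ ^ 2 := by
    intro a
    have h2 : ‖(Y *ᵥ u) a‖ ≤ ∑ b, ‖Y a b‖ * ‖u b‖ := by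
      refine (norm_sum_le _ _).trans (le_of_eq ?_)
      exact Finset.sum_congr rfl fun b _ => norm_mul _ _
    have h3 : (∑ b, ‖Y a b‖ * ‖u b‖) ^ 2 ≤ (∑ b, ‖Y a b‖) * ∑ b, ‖Y a b‖ * ‖u b‖ ^ 2 := by
      apply Finset.sum_sq_le_sum_mul_sum_of_sq_le_mul
      · intro b _
        positivity
      · intro b _
        positivity
      · intro b _
        exact le_of_eq (by ring)
    calc ‖(Y *ᵥ u) a‖ ^ 2 ≤ (∑ b, ‖Y a b‖ * ‖u b‖) ^ 2 :=
          pow_le_pow_left₀ (norm_nonneg _) h2 2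
      _ ≤ (∑ b, ‖Y a b‖) * ∑ b, ‖Y a b‖ * ‖u b‖ ^ 2 := h3
      _ ≤ t * ∑ b, ‖Y a b‖ * ‖u b‖ ^ 2 := by
          exact mul_le_mul_of_nonneg_right (hrow a) (Finset.sum_nonneg fun _ _ => by positivity)
  calc n2 (Y *ᵥ u) = ∑ a, ‖(Y *ᵥ u) a‖ ^ 2 := rfl
    _ ≤ ∑ a, t * ∑ b, ‖Y a b‖ * ‖u b‖ ^ 2 := Finset.sum_le_sum fun a _ => h1 a
    _ = t * ∑ b, (∑ a, ‖Y b a‖) * ‖u b‖ ^ 2 := by
        rw [← Finset.mul_sum, Finset.sum_comm]
        congr 1
        refine Finset.sum_congr rfl fun b _ => ?_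
        rw [Finset.sum_mul]
        exact Finset.sum_congr rfl fun a _ => by rw [hsym a b]
    _ ≤ t * ∑ b, t * ‖u b‖ ^ 2 := by
        apply mul_le_mul_of_nonneg_left _ ht
        exact Finset.sum_le_sum fun b _ => mul_le_mul_of_nonneg_right (hrow b) (by positivity)
    _ = t ^ 2 * n2 u := by
        rw [← Finset.mul_sum]
        unfold n2
        ring

theorem parl (u v : X → ℂ) : n2 (u + v) + n2 (u - v) = 2 * n2 u + 2 * n2 v := by
  unfold n2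
  rw [← Finset.sum_add_distrib, Finset.mul_sum, Finset.mul_sum, ← Finset.sum_add_distrib]
  refine Finset.sum_congr rfl fun x _ => ?_
  have h := parallelogram_law_with_norm ℝ (u x) (v x)
  rw [Pi.add_apply, Pi.sub_apply]
  nlinarith

theorem n2_smul (c : ℂ) (u : X → ℂ) : n2 (c • u) = ‖c‖ ^ 2 * n2 u := by
  unfold n2
  rw [Finset.mul_sum]
  refine Finset.sum_congr rfl fun x _ => ?_
  rw [Pi.smul_apply, smul_eq_mul, norm_mul, mul_pow]

/-- a row of a matrix of small norm -/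
theorem row_le (M : Matrix X X ℂ) (β : ℝ) (hβ : 0 ≤ β) (hMn : ∀ u, nr (M *ᵥ u) ≤ β * nr u)
    (hc : (Fintype.card X : ℝ) * β ^ 2 ≤ 1) (a : X) : ∑ b, ‖M a b‖ ≤ 1 := by
  obtain ⟨R, hR⟩ : ∃ R : ℝ, R = ∑ b, ‖M a b‖ ^ 2 := ⟨_, rfl⟩
  have hR0 : 0 ≤ R := by rw [hR]; positivity
  have h1 : (M *ᵥ fun b => (starRingEnd ℂ) (M a b)) a = (R : ℂ) := by
    rw [hR]
    show ∑ b, M a b * (starRingEnd ℂ) (M a b) = _
    push_cast
    exact Finset.sum_congr rfl fun b _ => by rw [Complex.mul_conj, Complex.normSq_eq_norm_sq]; push_cast; rfl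
  have h2 : nr (fun b => (starRingEnd ℂ) (M a b)) = Real.sqrt R := by
    unfold nr n2
    rw [hR]
    congr 1
    exact Finset.sum_congr rfl fun b _ => by rw [RCLike.norm_conj]
  have h3 : R ≤ nr (M *ᵥ fun b => (starRingEnd ℂ) (M a b)) := by
    unfold nr
    apply Real.le_sqrt_of_sq_le
    unfold n2
    have := Finset.single_le_sum (f := fun x => ‖(M *ᵥ fun b => (starRingEnd ℂ) (M a b)) x‖ ^ 2)
      (fun _ _ => by positivity) (Finset.mem_univ a)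
    simp only [h1] at this
    rw [Complex.norm_real, Real.norm_of_nonneg hR0] at this
    exact this
  have h4 := hMn (fun b => (starRingEnd ℂ) (M a b))
  rw [h2] at h4
  have h5 := h3.trans h4
  have h6 : Real.sqrt R ≤ β := by
    by_contra hlt
    push Not at hlt
    have h7 : 0 < Real.sqrt R := lt_of_le_of_lt hβ hlt
    have h8 := mul_lt_mul_of_pos_right hlt h7
    rw [Real.mul_self_sqrt hR0] at h8
    linarith
  have h7 : R ≤ β ^ 2 := by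
    have h8 := mul_self_le_mul_self (Real.sqrt_nonneg R) h6
    rw [Real.mul_self_sqrt hR0] at h8
    rw [sq]
    exact h8
  have h8 : (∑ b, ‖M a b‖) ^ 2 ≤ (Fintype.card X : ℝ) * R := by
    rw [hR]
    have := sq_sum_le_card_mul_sum_sq (s := (Finset.univ : Finset X)) (f := fun b => ‖M a b‖)
    rw [Finset.card_univ] at this
    exact this
  have h9 : (∑ b, ‖M a b‖) ^ 2 ≤ 1 := by
    have : (Fintype.card X : ℝ) * R ≤ (Fintype.card X : ℝ) * β ^ 2 :=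
      mul_le_mul_of_nonneg_left h7 (Nat.cast_nonneg _)
    linarith
  exact (sq_le_one_iff₀ (Finset.sum_nonneg fun _ _ => norm_nonneg _)).1 h9

/-- powers of a matrix with small rows -/
theorem pow_row [DecidableEq X] (Y : Matrix X X ℂ) (t : ℝ) (ht : 0 ≤ t)
    (hrow : ∀ a, ∑ b, ‖Y a b‖ ≤ t) : ∀ (k : ℕ) (a : X), ∑ b, ‖(Y ^ k) a b‖ ≤ t ^ k := by
  intro k
  induction k with
  | zero =>
    intro a
    rw [pow_zero, pow_zero]
    rw [Finset.sum_eq_single a]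
    · simp
    · intro b _ hb
      rw [Matrix.one_apply_ne hb.symm, norm_zero]
    · intro h; exact absurd (Finset.mem_univ a) h
  | succ k ih =>
    intro a
    calc ∑ b, ‖(Y ^ (k + 1)) a b‖ ≤ ∑ b, ∑ c, ‖(Y ^ k) a c‖ * ‖Y c b‖ := by
          refine Finset.sum_le_sum fun b _ => ?_
          rw [pow_succ, Matrix.mul_apply]
          refine (norm_sum_le _ _).trans (le_of_eq ?_)
          exact Finset.sum_congr rfl fun c _ => norm_mul _ _
      _ = ∑ c, ‖(Y ^ k) a c‖ * ∑ b, ‖Y c b‖ := by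
          rw [Finset.sum_comm]
          exact Finset.sum_congr rfl fun c _ => by rw [Finset.mul_sum]
      _ ≤ ∑ c, ‖(Y ^ k) a c‖ * t := by
          refine Finset.sum_le_sum fun c _ => ?_
          exact mul_le_mul_of_nonneg_left (hrow c) (norm_nonneg _)
      _ = (∑ c, ‖(Y ^ k) a c‖) * t := by rw [Finset.sum_mul]
      _ ≤ t ^ k * t := mul_le_mul_of_nonneg_right (ih a) ht
      _ = t ^ (k + 1) := by rw [pow_succ]

end

theorem thc : ThcStmt := by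
  intro X _ _ Y s k₀ hs hs2 hk hX hsym hunit hXi hrow a
  obtain ⟨Θ, hΘ⟩ : ∃ Θ, Θ = (1 - Y)⁻¹ := ⟨_, rfl⟩
  have hΘ1 : (1 - Y) * Θ = 1 := by rw [hΘ]; exact Matrix.mul_nonsing_inv _ hunit
  have hΘ2 : Θ * (1 - Y) = 1 := by rw [hΘ]; exact Matrix.nonsing_inv_mul _ hunit
  rw [← hΘ] at hXi ⊢
  have h1s : 0 ≤ 1 + s := by linarith
  -- `|Y v| ≤ |v - Y v|`
  have hY1 : ∀ v : X → ℂ, n2 (Y *ᵥ v) ≤ n2 (v - Y *ᵥ v) := by
    intro v
    have h1 := hXi ((1 - Y) *ᵥ v)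
    have h2 : (Θ - 1) *ᵥ ((1 - Y) *ᵥ v) = Y *ᵥ v := by
      rw [Matrix.mulVec_mulVec, Matrix.sub_mul, hΘ2, Matrix.one_mul, sub_sub_cancel]
    have h3 : (1 - Y) *ᵥ v = v - Y *ᵥ v := by
      rw [Matrix.sub_mulVec, Matrix.one_mulVec]
    rw [h2, h3] at h1
    exact h1
  have hY2 := schur Y (1 + s) h1s hsym hrow
  obtain ⟨Z, hZ⟩ : ∃ Z : Matrix X X ℂ, Z = (1 / 2 : ℂ) • (1 + Y) := ⟨_, rfl⟩
  have hZn2 : ∀ v : X → ℂ, n2 (Z *ᵥ v) ≤ (9 / 10) ^ 2 * n2 v := by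
    intro v
    have h1 : Z *ᵥ v = (1 / 2 : ℂ) • (v + Y *ᵥ v) := by
      rw [hZ, Matrix.smul_mulVec, Matrix.add_mulVec, Matrix.one_mulVec]
    have h2 : ‖(1 / 2 : ℂ)‖ ^ 2 = 1 / 4 := by norm_num
    rw [h1, n2_smul, h2]
    have h3 := parl v (Y *ᵥ v)
    have h4 := hY1 v
    have h5 := hY2 v
    have h6 : (1 + s) ^ 2 ≤ 121 / 100 := by nlinarith
    have h7 : (1 + s) ^ 2 * n2 v ≤ 121 / 100 * n2 v :=
      mul_le_mul_of_nonneg_right h6 (n2_nn v)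
    have h8 := n2_nn v
    linarith
  have hZn : ∀ u, nr (Z *ᵥ u) ≤ 9 / 10 * nr u := by
    intro u
    unfold nr
    rw [← Real.sqrt_sq (show (0 : ℝ) ≤ 9 / 10 by norm_num), ← Real.sqrt_mul (by positivity)]
    exact Real.sqrt_le_sqrt (hZn2 u)
  have hΘn : ∀ u, nr (Θ *ᵥ u) ≤ 2 * nr u := by
    intro u
    have h1 : Θ *ᵥ u = u + (Θ - 1) *ᵥ u := by
      rw [Matrix.sub_mulVec, Matrix.one_mulVec, add_sub_cancel]
    have h3 := nr_add u ((Θ - 1) *ᵥ u)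
    rw [← h1] at h3
    have h4 : nr ((Θ - 1) *ᵥ u) ≤ nr u := Real.sqrt_le_sqrt (hXi u)
    linarith
  have hpow : ∀ (k : ℕ) (u : X → ℂ), nr ((Z ^ k) *ᵥ u) ≤ (9 / 10) ^ k * nr u := by
    intro k
    induction k with
    | zero => intro u; simp
    | succ k ih =>
      intro u
      rw [pow_succ, ← Matrix.mulVec_mulVec]
      calc nr ((Z ^ k) *ᵥ (Z *ᵥ u)) ≤ (9 / 10) ^ k * nr (Z *ᵥ u) := ih _
        _ ≤ (9 / 10) ^ k * (9 / 10 * nr u) := by
            exact mul_le_mul_of_nonneg_left (hZn u) (by positivity)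
        _ = (9 / 10) ^ (k + 1) * nr u := by ring
  obtain ⟨M, hM⟩ : ∃ M, M = Z ^ k₀ * Θ := ⟨_, rfl⟩
  have hMn : ∀ u, nr (M *ᵥ u) ≤ 2 * (9 / 10) ^ k₀ * nr u := by
    intro u
    rw [hM, ← Matrix.mulVec_mulVec]
    calc nr ((Z ^ k₀) *ᵥ (Θ *ᵥ u)) ≤ (9 / 10) ^ k₀ * nr (Θ *ᵥ u) := hpow _ _
      _ ≤ (9 / 10) ^ k₀ * (2 * nr u) := mul_le_mul_of_nonneg_left (hΘn u) (by positivity)
      _ = 2 * (9 / 10) ^ k₀ * nr u := by ring
  have hMrow : ∑ b, ‖M a b‖ ≤ 1 := by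
    apply row_le M _ (by positivity) hMn
    calc (Fintype.card X : ℝ) * (2 * (9 / 10) ^ k₀) ^ 2
        = 4 * ((Fintype.card X : ℝ) * (9 / 10) ^ (2 * k₀)) := by rw [pow_mul']; ring
      _ ≤ 1 := by linarith
  have hZrow : ∀ a, ∑ b, ‖Z a b‖ ≤ 1 + s := by
    intro a
    have h1 : ∀ b, ‖Z a b‖ ≤ 1 / 2 * (‖(1 : Matrix X X ℂ) a b‖ + ‖Y a b‖) := by
      intro b
      have h2 : Z a b = (1 / 2 : ℂ) * ((1 : Matrix X X ℂ) a b + Y a b) := by
        rw [hZ]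
        rfl
      have h3 : ‖(1 / 2 : ℂ)‖ = 1 / 2 := by norm_num
      rw [h2, norm_mul, h3]
      exact mul_le_mul_of_nonneg_left (norm_add_le _ _) (by norm_num)
    have h4 : ∑ b, ‖(1 : Matrix X X ℂ) a b‖ = 1 := by
      rw [Finset.sum_eq_single a]
      · simp
      · intro b _ hb
        rw [Matrix.one_apply_ne hb.symm, norm_zero]
      · intro h; exact absurd (Finset.mem_univ a) h
    calc ∑ b, ‖Z a b‖ ≤ ∑ b, 1 / 2 * (‖(1 : Matrix X X ℂ) a b‖ + ‖Y a b‖) :=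
          Finset.sum_le_sum fun b _ => h1 b
      _ = 1 / 2 * (1 + ∑ b, ‖Y a b‖) := by
          rw [← Finset.mul_sum, Finset.sum_add_distrib, h4]
      _ ≤ 1 + s := by
          have := hrow a
          linarith
  have hexp : Θ = (1 / 2 : ℂ) • ∑ k ∈ Finset.range k₀, Z ^ k + M := by
    have h1 : (∑ k ∈ Finset.range k₀, Z ^ k) * (1 - Z) = 1 - Z ^ k₀ := geom_sum_mul_neg Z k₀
    have h3 : 1 - Z = (1 / 2 : ℂ) • (1 - Y) := by
      rw [hZ]
      ext i j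
      simp only [Matrix.sub_apply, Matrix.smul_apply, Matrix.add_apply, smul_eq_mul]
      ring
    have h2 : (1 / 2 : ℂ) • ∑ k ∈ Finset.range k₀, Z ^ k = (1 - Z ^ k₀) * Θ := by
      rw [← h1, h3, Matrix.mul_smul, Matrix.smul_mul, Matrix.mul_assoc, hΘ1, Matrix.mul_one]
    rw [h2, hM, Matrix.sub_mul, Matrix.one_mul, sub_add_cancel]
  calc ∑ b, ‖Θ a b‖ ≤ ∑ b, (1 / 2 * ∑ k ∈ Finset.range k₀, ‖(Z ^ k) a b‖ + ‖M a b‖) := by
        refine Finset.sum_le_sum fun b _ => ?_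
        conv_lhs => rw [hexp]
        have h3 : ‖(1 / 2 : ℂ)‖ = 1 / 2 := by norm_num
        rw [Matrix.add_apply, Matrix.smul_apply, Matrix.sum_apply]
        refine (norm_add_le _ _).trans (add_le_add ?_ le_rfl)
        rw [smul_eq_mul, norm_mul, h3]
        exact mul_le_mul_of_nonneg_left (norm_sum_le _ _) (by norm_num)
    _ = 1 / 2 * ∑ k ∈ Finset.range k₀, ∑ b, ‖(Z ^ k) a b‖ + ∑ b, ‖M a b‖ := by
        rw [Finset.sum_add_distrib, ← Finset.mul_sum, Finset.sum_comm]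
    _ ≤ 1 / 2 * ∑ _k ∈ Finset.range k₀, (2 : ℝ) + 1 := by
        refine add_le_add (mul_le_mul_of_nonneg_left
          (Finset.sum_le_sum fun k hk' => ?_) (by norm_num)) hMrow
        refine (pow_row Z (1 + s) h1s hZrow k a).trans ?_
        refine le_trans ?_ hk
        exact pow_le_pow_right₀ (by linarith) (Finset.mem_range.1 hk').le
    _ ≤ 2 * k₀ + 1 := by
        rw [Finset.sum_const, Finset.card_range, nsmul_eq_mul]
        have : (0 : ℝ) ≤ k₀ := Nat.cast_nonneg _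
        linarith

end Pool.Agent.LE.QZ.H44
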