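import Pool.Agent.LE.StmtsQZ

/-!
# Squad LQZ, row UPB: the part of `Ξ` (adapted from Helper87_LQX/UPB.lean)
-/

set_option autoImplicit false

open MeasureTheory ProbabilityTheory Function Filter

open scoped ENNReal BigOperators Topology NNReal ComplexOrder Matrix

noncomputable section

namespace Pool.Agent.LE.QZ.H44

open Pool.Agent.Anderson hiding box mem_box card_box
open Pool.Agent.Loc Pool.Agent.Mob Pool.Agent.Helper54.Bal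
  Pool.Agent.Helper96.EXP Pool.Agent.BED
open Pool.Agent.LE.MN Pool.Agent.LE.CL Pool.Agent.LE.IR Pool.Agent.LE.QD Pool.Agent.LE.QF

variable {d M : ℕ} [NeZero M]

namespace UPB

theorem cardT : (Fintype.card (Tor d M) : ℝ) = (M : ℝ) ^ d := by
  have h : Fintype.card (Tor d M) = M ^ d := by
    simp [Tor, ZMod.card]
  rw [h]
  push_cast
  rfl

theorem n2_smul {X : Type} [Fintype X] (A : Matrix X X ℂ) (t : ℝ) (u : X → ℂ) :
    n2 (((t : ℂ) • A) *ᵥ u) = t ^ 2 * n2 (A *ᵥ u) := by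
  unfold n2
  rw [Finset.mul_sum]
  refine Finset.sum_congr rfl fun x _ => ?_
  rw [Matrix.smul_mulVec, Pi.smul_apply, norm_smul, mul_pow, Complex.norm_real, Real.norm_eq_abs,
    sq_abs]

theorem n2_nonneg {X : Type} [Fintype X] (u : X → ℂ) : 0 ≤ n2 u :=
  Finset.sum_nonneg fun _ _ => sq_nonneg _

/-- the rate -/
theorem rate (D : Dat d M) {c₁ C₁ c₀ κ K : ℝ} (hA : Adm D c₁ C₁ c₀) (hc₀ : c₀ ≤ 1 / 2)
    (h1 : D.η ≤ κ) (h2 : κ ≤ D.w) (hK : 0 ≤ K) :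
    4 * D.j * (4 * (K * (D.δ / κ)) + 8 * (K * (D.N + D.δ ^ 2 / κ))) / (99 / 100) +
      8 * D.j ^ 2 * (16 * (K * (D.N + D.δ ^ 2 / κ))) / (99 / 100) ^ 2 ≤
      200 * K * D.aN / κ := by
  have hη : 0 < D.η := hA.hT.2.1
  have hκ0 : 0 < κ := hη.trans_le h1
  obtain ⟨hj2, -, hL, hN, hπ⟩ := hA.hj
  obtain ⟨hδ0, hδc⟩ := hA.hδ
  have hw : 0 < D.w := hκ0.trans_le h2
  have he : 0 < D.e₀ - 1 := by linarith [hA.he.1, hA.he.2.1]
  have hch : 0 ≤ D.ch := by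
    unfold Dat.ch
    positivity
  have hj1 : (1 : ℝ) ≤ D.j := by
    have : (2 : ℝ) ≤ D.j := by exact_mod_cast hj2
    linarith
  have hjj : (D.j : ℝ) ≤ (D.j : ℝ) ^ 2 := by nlinarith
  -- the quantities
  obtain ⟨x, hx⟩ : ∃ x, x = D.δ / κ := ⟨_, rfl⟩
  obtain ⟨y, hy⟩ : ∃ y, y = D.N + D.δ ^ 2 / κ := ⟨_, rfl⟩
  have hx0 : 0 ≤ x := by rw [hx]; positivity
  have hy0 : 0 ≤ y := by rw [hy]; positivity
  have hyκ : y ≤ (D.N * D.w + D.δ) / κ := by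
    have e3 : y = (D.N * κ + D.δ ^ 2) / κ := by
      rw [hy]
      field_simp
    rw [e3]
    have e4 : D.δ ^ 2 ≤ D.δ := by nlinarith
    have e5 : D.N * κ ≤ D.N * D.w := mul_le_mul_of_nonneg_left h2 (by linarith)
    gcongr
  rw [← hx, ← hy]
  have e1 : 4 * (D.j : ℝ) * (4 * (K * x) + 8 * (K * y)) / (99 / 100) +
      8 * (D.j : ℝ) ^ 2 * (16 * (K * y)) / (99 / 100) ^ 2 ≤
      K * (17 * (D.j * x) + 164 * ((D.j : ℝ) ^ 2 * y)) := by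
    have e2 : (0 : ℝ) ≤ K * (D.j * x) := by positivity
    have e3 : (0 : ℝ) ≤ K * ((D.j : ℝ) ^ 2 * y) := by positivity
    have e4 : K * (D.j * y) ≤ K * ((D.j : ℝ) ^ 2 * y) :=
      mul_le_mul_of_nonneg_left (mul_le_mul_of_nonneg_right hjj hy0) hK
    have e5 : 4 * (D.j : ℝ) * (4 * (K * x) + 8 * (K * y)) / (99 / 100) +
        8 * (D.j : ℝ) ^ 2 * (16 * (K * y)) / (99 / 100) ^ 2 =
        1600 / 99 * (K * (D.j * x)) + 3200 / 99 * (K * (D.j * y)) +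
          1280000 / 9801 * (K * ((D.j : ℝ) ^ 2 * y)) := by ring
    rw [e5]
    linarith
  refine e1.trans ?_
  have e6 : D.j * D.δ + D.j ^ 2 * (D.N * D.w + D.δ) ≤ D.aN := by
    unfold Dat.aN
    have hh1 : (1 : ℝ) ≤ D.h := by
      unfold Dat.h
      have : (0 : ℝ) ≤ D.k := Nat.cast_nonneg _
      linarith
    have hh2 : (1 : ℝ) ≤ D.h ^ 2 := one_le_pow₀ hh1
    have hh0 : (0 : ℝ) ≤ D.h := by linarith
    have a1 : (D.j : ℝ) * D.δ ≤ D.j * (D.h ^ 2 * (D.δ + Real.sqrt D.ch / D.δ)) := by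
      apply mul_le_mul_of_nonneg_left _ (by linarith)
      have a2 : D.δ ≤ D.δ + Real.sqrt D.ch / D.δ := by
        have : 0 ≤ Real.sqrt D.ch / D.δ := by positivity
        linarith
      exact a2.trans (le_mul_of_one_le_left (hδ0.le.trans a2) hh2)
    have a3 : (D.j : ℝ) ^ 2 * (D.N * D.w + D.δ) ≤ D.j ^ 2 * (D.h ^ 4 * (D.ch / D.δ ^ 2) +
        D.N * D.w + D.δ + 1 / Real.sqrt D.L₀ + (D.e₀ - 1)) := by
      apply mul_le_mul_of_nonneg_left _ (by positivity)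
      have a4 : 0 ≤ D.h ^ 4 * (D.ch / D.δ ^ 2) := by positivity
      have a5 : 0 ≤ 1 / Real.sqrt D.L₀ := by positivity
      linarith
    have a6 : 0 ≤ D.p * D.δ + D.p ^ 2 * (D.N * D.w + D.δ ^ 2 + D.π₀) := by positivity
    linarith
  have e7 : 17 * (D.j * x) + 164 * ((D.j : ℝ) ^ 2 * y) ≤ 200 * D.aN / κ := by
    have b1 : (D.j : ℝ) ^ 2 * y ≤ (D.j : ℝ) ^ 2 * ((D.N * D.w + D.δ) / κ) :=
      mul_le_mul_of_nonneg_left hyκ (by positivity)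
    have b2 : (D.j * x) + ((D.j : ℝ) ^ 2 * y) ≤ D.aN / κ := by
      calc (D.j * x) + ((D.j : ℝ) ^ 2 * y) ≤
            D.j * (D.δ / κ) + (D.j : ℝ) ^ 2 * ((D.N * D.w + D.δ) / κ) := by
            rw [hx]
            linarith
        _ = (D.j * D.δ + D.j ^ 2 * (D.N * D.w + D.δ)) / κ := by ring
        _ ≤ D.aN / κ := by gcongr
    have b3 : (0 : ℝ) ≤ D.j * x := by positivity
    have b4 : (0 : ℝ) ≤ (D.j : ℝ) ^ 2 * y := by positivity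
    have b5 : 200 * D.aN / κ = 200 * (D.aN / κ) := by ring
    rw [b5]
    linarith
  calc K * (17 * (D.j * x) + 164 * ((D.j : ℝ) ^ 2 * y)) ≤ K * (200 * D.aN / κ) :=
        mul_le_mul_of_nonneg_left e7 hK
    _ = 200 * K * D.aN / κ := by ring

end UPB

open UPB in
/-- UPB -/
theorem upb (xjt : XjtStmt) (nrb : NrbStmt) (xnb : XnbStmt) (xtu : XtuStmt) (rsj : RsjStmt) :
    UpbStmt := by
  intro c₁ C₁ C₀ hc₁ hC₁ hC₀
  obtain ⟨P, hP, nrb⟩ := nrb C₀ hC₀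
  have hC2 : (1 : ℝ) ≤ C₀ ^ 2 := one_le_pow₀ hC₀
  have hK1 : (1 : ℝ) ≤ C₀ ^ 2 * P := one_le_mul_of_one_le_of_one_le hC2 hP
  refine ⟨200 * (C₀ ^ 2 * P), by linarith, ?_⟩
  intro d M _ D c₀ κ τ q hc₀ hA hq0 hqT hg
  obtain ⟨hκe, hτe, h1, h2, hτ0, hτ1, hτ2⟩ := hg.hκ
  have hη : 0 < D.η := hA.hT.2.1
  have hκ0 : 0 < κ := hη.trans_le h1
  obtain ⟨hδ0, hδc⟩ := hA.hδ
  have hN : 0 ≤ D.N := by linarith [hA.hj.2.2.2.1]
  have hr := rsj d M D c₁ C₁ c₀ q hc₁ hA (hκe ▸ hκ0)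
  have hJ := hr.1
  rw [← hτe] at hJ
  obtain ⟨-, -, -, n4, n5, n6⟩ := nrb (Tor d M) (D.G q) (D.mu q) D.nr κ τ D.δ D.N hg.hG
  have hYq : (τ : ℂ) • BB (D.G q) = D.Y q := by
    rw [hτe]
    rfl
  have hΘe : D.Th q = (1 - (τ : ℂ) • BB (D.G q))⁻¹ := by
    rw [hYq]
    rfl
  have j4 := xjt (Tor d M) q D.G D.ta (D.G q) (D.Th q) D.m τ (D.mu q) hτ0 hJ rfl
    (by rw [hYq]; exact hg.hu) hΘe
  have hYe : (fun r => (1 - (D.ta r.1 : ℂ) • BB (D.G r))⁻¹ - 1) = D.Xi := rfl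
  rw [hYe] at j4
  have hτκ2 : τ ^ 2 ≤ C₀ ^ 2 * κ ^ 2 := by
    rw [← mul_pow]
    exact pow_le_pow_left₀ hτ0.le hτ1 2
  obtain ⟨-, x2, x3, x4⟩ := xnb (Tor d M) (Tor d M) (D.Th q) ((τ : ℂ) • EB (D.G q) (D.mu q))
    (fun c => (τ : ℂ) • dB (D.G q) c) (C₀ ^ 2 * P * (D.δ / κ)) (C₀ ^ 2 * P * (D.N + D.δ ^ 2 / κ))
    (by positivity) (by positivity) hg.hX
    (fun u => by
      rw [n2_smul]
      have h6 : τ ^ 2 * n2 (EB (D.G q) (D.mu q) *ᵥ u) ≤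
          C₀ ^ 2 * κ ^ 2 * ((P * D.δ / κ ^ 2) ^ 2 * n2 u) :=
        mul_le_mul hτκ2 (n4 u) (n2_nonneg _) (by positivity)
      have h7 : C₀ ^ 2 * κ ^ 2 * ((P * D.δ / κ ^ 2) ^ 2 * n2 u) =
          C₀ ^ 2 * ((P * (D.δ / κ)) ^ 2 * n2 u) := by
        field_simp
      have h8 : (C₀ ^ 2 * P * (D.δ / κ)) ^ 2 * n2 u =
          C₀ ^ 2 * (C₀ ^ 2 * ((P * (D.δ / κ)) ^ 2 * n2 u)) := by ring
      rw [h8]
      rw [h7] at h6
      refine h6.trans (le_mul_of_one_le_left ?_ hC2)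
      have := n2_nonneg u
      positivity)
    (fun u => by
      simp only [n2_smul]
      rw [← Finset.mul_sum]
      have h6 : τ ^ 2 * ∑ c, n2 (dB (D.G q) c *ᵥ u) ≤
          C₀ ^ 2 * κ ^ 2 * (P * (D.N / κ ^ 2 + D.δ ^ 2 / κ ^ 3) * n2 u) :=
        mul_le_mul hτκ2 (n5 u) (Finset.sum_nonneg fun _ _ => n2_nonneg _) (by positivity)
      refine h6.trans (le_of_eq ?_)
      field_simp)
    (fun u => by
      have h5 : ∀ c, ((τ : ℂ) • dB (D.G q) c)ᴴ = (τ : ℂ) • (dB (D.G q) c)ᴴ := by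
        intro c
        rw [Matrix.conjTranspose_smul]
        congr 1
        exact Complex.conj_ofReal τ
      simp only [h5, n2_smul]
      rw [← Finset.mul_sum]
      have h6 : τ ^ 2 * ∑ c, n2 ((dB (D.G q) c)ᴴ *ᵥ u) ≤
          C₀ ^ 2 * κ ^ 2 * (P * (D.N / κ ^ 2 + D.δ ^ 2 / κ ^ 3) * n2 u) :=
        mul_le_mul hτκ2 (n6 u) (Finset.sum_nonneg fun _ _ => n2_nonneg _) (by positivity)
      refine h6.trans (le_of_eq ?_)
      field_simp)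
  obtain ⟨g', l', J, hl'⟩ := xtu (Tor d M) q (Tor d M) D.Xi (D.Th q - 1) _
    (fun c => D.Th q * ((τ : ℂ) • dB (D.G q) c) * D.Th q) τ
    (4 * (C₀ ^ 2 * P * (D.δ / κ)) + 8 * (C₀ ^ 2 * P * (D.N + D.δ ^ 2 / κ))) (99 / 100)
    (16 * (C₀ ^ 2 * P * (D.N + D.δ ^ 2 / κ))) D.j hτ0 (by positivity) (by norm_num)
    (by positivity) (by linarith [hA.hj.1]) j4 x2 x3 x4
  have J' : HJ D.U3 q (D.U3 q) g' l' := J
  refine ⟨J'.sm, ?_⟩
  rw [J'.ge]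
  have e1 : (Matrix.trace (((D.Th q - 1) * (D.Th q - 1)ᴴ) ^ D.j)).re / (99 / 100) ^ (2 * D.j) =
    D.U3 q := rfl
  rw [e1, cardT] at hl'
  have hU : 0 ≤ D.U3 q := by
    have hps : ((D.Xi q * (D.Xi q)ᴴ) ^ D.j).PosSemidef :=
      (Matrix.posSemidef_self_mul_conjTranspose (D.Xi q)).pow D.j
    have h5 := (Complex.le_def.1 hps.trace_nonneg).1
    unfold Dat.U3
    exact div_nonneg h5 (by positivity)
  have hM : (1 : ℝ) ≤ (M : ℝ) ^ d :=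
    one_le_pow₀ (by exact_mod_cast Nat.one_le_iff_ne_zero.2 (NeZero.ne M))
  have e3 : (M : ℝ) ^ d ≤ ((M : ℝ) ^ d) ^ 2 := by nlinarith
  have e4 : (M : ℝ) ^ d * (1 / 4) ^ D.j ≤ ((M : ℝ) ^ d) ^ 2 * (1 / 4) ^ D.j :=
    mul_le_mul_of_nonneg_right e3 (by positivity)
  have e5 : 0 ≤ (M : ℝ) ^ d * (1 / 4) ^ D.j := by positivity
  have r := rate D (K := C₀ ^ 2 * P) hA hc₀ h1 h2 (by linarith)
  have r0 : 0 ≤ 4 * D.j * (4 * (C₀ ^ 2 * P * (D.δ / κ)) +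
      8 * (C₀ ^ 2 * P * (D.N + D.δ ^ 2 / κ))) / (99 / 100) +
      8 * D.j ^ 2 * (16 * (C₀ ^ 2 * P * (D.N + D.δ ^ 2 / κ))) / (99 / 100) ^ 2 := by positivity
  refine hl'.trans ?_
  refine (mul_le_mul_of_nonneg_right r (by linarith)).trans ?_
  exact mul_le_mul_of_nonneg_left (by linarith) (r0.trans r)

end Pool.Agent.LE.QZ.H44
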